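import Mathlib
import Pool.Agent.H92.SG.Stmts

/-!
# Module TWQ of board sg7: the structure of a band in the twisted system
-/

namespace Pool.Agent.H83.SG

open Pool.Agent.H92.SG

section

variable {R : Type} [CommRing R] {m : ℕ}

theorem Sv_add (e : AddChar (ZMod m) R) (a : ZMod m) (v w : V2 R) :
    Sv e a (v + w) = Sv e a v + Sv e a w := by
  funext k
  fin_cases k
  · show e a * (v 1 + w 1) = e a * v 1 + e a * w 1
    ring
  · show e (-a) * (v 0 + w 0) = e (-a) * v 0 + e (-a) * w 0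
    ring

theorem Sv_smul (e : AddChar (ZMod m) R) (a : ZMod m) (r : R) (v : V2 R) :
    Sv e a (r • v) = r • Sv e a v := by
  funext k
  fin_cases k
  · show e a * (r * v 1) = r * (e a * v 1)
    ring
  · show e (-a) * (r * v 0) = r * (e (-a) * v 0)
    ring

/-- The vector `(u, -u)` at the strands `i, i+1`. -/
def P0 (R : Type) [CommRing R] (i : ℕ) : V2 R →ₗ[R] (ℕ → V2 R) where
  toFun u := fun j => if j = i then u else if j = i + 1 then -u else 0
  map_add' u v := by
    funext j
    simp only [Pi.add_apply]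
    split_ifs <;> simp [add_comm]
  map_smul' r u := by
    funext j
    simp only [Pi.smul_apply, RingHom.id_apply]
    split_ifs <;> simp

/-- The linear map `s ↦ s_{i+1} - r S(α) s_i`. -/
def Q0 (r : R) (e : AddChar (ZMod m) R) (α : ZMod m) (i : ℕ) : (ℕ → V2 R) →ₗ[R] V2 R where
  toFun s := s (i + 1) - r • Sv e α (s i)
  map_add' s s' := by
    rw [Pi.add_apply, Pi.add_apply, Sv_add, smul_add]; abel
  map_smul' r' s := by
    rw [Pi.smul_apply, Pi.smul_apply, Sv_smul, RingHom.id_apply, smul_sub, smul_comm r r']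

/-- The linear map `s ↦ r S(α) s_{i+1} - s_i`. -/
def Q1 (r : R) (e : AddChar (ZMod m) R) (α : ZMod m) (i : ℕ) : (ℕ → V2 R) →ₗ[R] V2 R where
  toFun s := r • Sv e α (s (i + 1)) - s i
  map_add' s s' := by
    rw [Pi.add_apply, Pi.add_apply, Sv_add, smul_add]; abel
  map_smul' r' s := by
    rw [Pi.smul_apply, Pi.smul_apply, Sv_smul, RingHom.id_apply, smul_sub, smul_comm r r']

theorem e_mul (e : AddChar (ZMod m) R) (α : ZMod m) : e α * e (-α) = 1 := by
  rw [← AddChar.map_add_eq_mul]; simp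

theorem pr_add (c : R →+* R) (u v w : V2 R) : pr c u (v + w) = pr c u v + pr c u w := by
  simp [pr, Fin.sum_univ_two]; ring

theorem pr_neg (c : R →+* R) (u v : V2 R) : pr c (-u) v = - pr c u v := by
  simp [pr]

theorem pr_zero (c : R →+* R) (v : V2 R) : pr c 0 v = 0 := by
  simp [pr]

/-- The double sum for the vector `(u, -u)`. -/
theorem dsum (c : R →+* R) (N i : ℕ) (hi : i + 1 < N) (u : V2 R) (y : ℕ → V2 R) :
    ∑ j ∈ Finset.range N, ∑ k ∈ Finset.range j,
      (pr c (P0 R i u k) (y j) - pr c (P0 R i u j) (y k)) =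
      pr c u (y (i + 1)) + pr c u (y i) := by
  have hP : ∀ j, P0 R i u j = if j = i then u else if j = i + 1 then -u else 0 := fun j => rfl
  have h1 : ∀ j, ∑ k ∈ Finset.range j, pr c (P0 R i u k) (y j) =
      if j = i + 1 then pr c u (y (i + 1)) else 0 := by
    intro j
    have h2 : ∀ k, pr c (P0 R i u k) (y j) =
        (if k = i then pr c u (y j) else 0) - (if k = i + 1 then pr c u (y j) else 0) := by
      intro k
      rw [hP]
      by_cases h3 : k = i
      · subst h3; simp
      · by_cases h4 : k = i + 1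
        · subst h4; simp [pr_neg]
        · simp [h3, h4, pr_zero]
    rw [Finset.sum_congr rfl fun k _ => h2 k, Finset.sum_sub_distrib, Finset.sum_ite_eq',
      Finset.sum_ite_eq']
    simp only [Finset.mem_range]
    by_cases h5 : j = i + 1
    · subst h5; simp
    · by_cases h6 : i < j
      · have h7 : i + 1 < j := by omega
        simp [h5, h6, h7]
      · have h7 : ¬ i + 1 < j := by omega
        simp [h5, h6, h7]
  have h1' : ∀ j, ∑ k ∈ Finset.range j, pr c (P0 R i u j) (y k) =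
      (if j = i then ∑ k ∈ Finset.range i, pr c u (y k) else 0) -
      (if j = i + 1 then ∑ k ∈ Finset.range (i + 1), pr c u (y k) else 0) := by
    intro j
    rw [hP]
    by_cases h3 : j = i
    · subst h3; simp
    · by_cases h4 : j = i + 1
      · subst h4; simp [pr_neg]
      · simp [h3, h4, pr_zero]
  simp only [Finset.sum_sub_distrib]
  rw [Finset.sum_congr rfl fun j _ => h1 j, Finset.sum_congr rfl fun j _ => h1' j,
    Finset.sum_sub_distrib, Finset.sum_ite_eq', Finset.sum_ite_eq', Finset.sum_ite_eq']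
  have h8 : i ∈ Finset.range N := by simp; omega
  have h9 : i + 1 ∈ Finset.range N := by simp; omega
  rw [if_pos h8, if_pos h9, if_pos h9, Finset.sum_range_succ]
  ring

/-- The single sum for the vector `(u, -u)`. -/
theorem ssum (c : R →+* R) (N i : ℕ) (hi : i + 1 < N) (u : V2 R) (y : ℕ → V2 R) :
    ∑ j ∈ Finset.range N, pr c (P0 R i u j) (y j) = pr c u (y i) - pr c u (y (i + 1)) := by
  have hP : ∀ j, P0 R i u j = if j = i then u else if j = i + 1 then -u else 0 := fun j => rfl
  have h2 : ∀ j, pr c (P0 R i u j) (y j) =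
      (if j = i then pr c u (y i) else 0) - (if j = i + 1 then pr c u (y (i + 1)) else 0) := by
    intro k
    rw [hP]
    by_cases h3 : k = i
    · subst h3; simp
    · by_cases h4 : k = i + 1
      · subst h4; simp [pr_neg]
      · simp [h3, h4, pr_zero]
  rw [Finset.sum_congr rfl fun j _ => h2 j, Finset.sum_sub_distrib, Finset.sum_ite_eq',
    Finset.sum_ite_eq']
  have h8 : i ∈ Finset.range N := by simp; omega
  have h9 : i + 1 ∈ Finset.range N := by simp; omega
  rw [if_pos h8, if_pos h9]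

/-- The matrix `-2 (r + S(α))`. -/
def UM (r : R) (e : AddChar (ZMod m) R) (α : ZMod m) : Matrix (Fin 2) (Fin 2) R :=
  !![-2 * r, -2 * e α; -2 * e (-α), -2 * r]

theorem UM_det (r : R) (e : AddChar (ZMod m) R) (α : ZMod m) :
    (UM r e α).det = 2 * 2 * (r ^ 2 - 1) := by
  rw [UM, Matrix.det_fin_two_of]
  linear_combination (-4) * e_mul e α

/-- The form on a band vector. -/
theorem form_P0 (c : R →+* R) (t : Rˣ) (e : AddChar (ZMod m) R) (N i : ℕ) (hi : i + 1 < N)
    (b : ℕ → ZMod m) (hb : b (i + 1) = b i) (u : V2 R) (y : ℕ → V2 R) :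
    Om c t e N b (P0 R i u) y =
      pr c u ((UM (t : R) e (b i)).mulVec (Q0 ((t⁻¹ : Rˣ) : R) e (b i) i y)) := by
  unfold Om
  rw [dsum c N i hi u y, ssum c N i hi u
    (fun j => ((t : R) + ((t⁻¹ : Rˣ) : R)) • y j + (2 : R) • Sv e (b j) (y j)), hb]
  have hE := e_mul e (b i)
  have ht : ((t⁻¹ : Rˣ) : R) * (t : R) = 1 := by simp
  simp only [pr, Fin.sum_univ_two, Sv, UM, Q0, Pi.add_apply, Pi.smul_apply, smul_eq_mul,
    Matrix.mulVec, dotProduct, Matrix.of_apply, Matrix.cons_val_zero, Matrix.cons_val_one,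
    LinearMap.coe_mk, AddHom.coe_mk, Pi.sub_apply, Matrix.cons_val', Matrix.cons_val_fin_one]
  linear_combination (-2 * c (u 0) * e (b i) * y i 1 - 2 * c (u 1) * e (-(b i)) * y i 0) * ht +
    (-2 * c (u 0) * ((t⁻¹ : Rˣ) : R) * y i 0 - 2 * c (u 1) * ((t⁻¹ : Rˣ) : R) * y i 1) * hE

/-- The form on a band vector, second version. -/
theorem form_P1 (c : R →+* R) (t : Rˣ) (e : AddChar (ZMod m) R) (N i : ℕ) (hi : i + 1 < N)
    (b : ℕ → ZMod m) (hb : b (i + 1) = b i) (u : V2 R) (y : ℕ → V2 R) :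
    Om c t e N b (P0 R i u) y =
      pr c u ((UM ((t⁻¹ : Rˣ) : R) e (b i)).mulVec (Q1 (t : R) e (b i) i y)) := by
  unfold Om
  rw [dsum c N i hi u y, ssum c N i hi u
    (fun j => ((t : R) + ((t⁻¹ : Rˣ) : R)) • y j + (2 : R) • Sv e (b j) (y j)), hb]
  have hE := e_mul e (b i)
  have ht : ((t⁻¹ : Rˣ) : R) * (t : R) = 1 := by simp
  simp only [pr, Fin.sum_univ_two, Sv, UM, Q1, Pi.add_apply, Pi.smul_apply, smul_eq_mul,
    Matrix.mulVec, dotProduct, Matrix.of_apply, Matrix.cons_val_zero, Matrix.cons_val_one,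
    LinearMap.coe_mk, AddHom.coe_mk, Pi.sub_apply, Matrix.cons_val', Matrix.cons_val_fin_one]
  linear_combination (2 * c (u 0) * e (b i) * y (i + 1) 1 +
    2 * c (u 1) * e (-(b i)) * y (i + 1) 0) * ht +
    (2 * c (u 0) * (t : R) * y (i + 1) 0 + 2 * c (u 1) * (t : R) * y (i + 1) 1) * hE

end

theorem TWQ_thm (hA : TwA) (hB : TwB) (hF : TwFormStmt) (hDA : DihA) (_hDB : DihB) :
    TwBandStmt := by
  intro R _ m t e c hct hce h2 ht N x a hx ha
  obtain ⟨w, hw, i, hi, hx⟩ := hx
  obtain ⟨b, hbdef⟩ : ∃ b, b = dih (ZMod m) w⁻¹ a := ⟨_, rfl⟩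
  have hwb : dih (ZMod m) w b = a := by
    rw [hbdef, ← LinearEquiv.mul_apply, ← map_mul, mul_inv_cancel, map_one]; rfl
  -- the key reduction
  have key : ∀ (g : B), x = w * g * w⁻¹ → dih (ZMod m) g b = b →
      ∀ (Qg : (ℕ → V2 R) →ₗ[R] V2 R) (U : Matrix (Fin 2) (Fin 2) R), IsUnit U.det →
      (∀ s, tw t e g b s = s + P0 R i (Qg s)) →
      (∀ u y, Om c t e N b (P0 R i u) y = pr c u (U.mulVec (Qg y))) →
      (∀ s s' : ℕ → V2 R, (∀ j < N, s j = s' j) → Qg s = Qg s') →
      ∃ (P : V2 R →ₗ[R] (ℕ → V2 R)) (Q : (ℕ → V2 R) →ₗ[R] V2 R) (U : Matrix (Fin 2) (Fin 2) R),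
      IsUnit U.det ∧ (∀ s, tw t e x a s = s + P (Q s)) ∧
      (∀ u y, Om c t e N a (P u) y = ∑ k, c (u k) * (U.mulVec (Q y)) k) ∧
      (∀ u i, N ≤ i → P u i = 0) ∧ (∀ s s', (∀ i < N, s i = s' i) → Q s = Q s') := by
    intro g hxg hgb Qg U hU hg hform hloc
    let Tw : (ℕ → V2 R) →ₗ[R] (ℕ → V2 R) :=
      { toFun := fun s => tw t e w b s
        map_add' := fun s s' => hA.add R m t e w b s s'
        map_smul' := fun r s => hA.smul R m t e w b r s }
    let Ti : (ℕ → V2 R) →ₗ[R] (ℕ → V2 R) :=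
      { toFun := fun s => tw t e w⁻¹ a s
        map_add' := fun s s' => hA.add R m t e w⁻¹ a s s'
        map_smul' := fun r s => hA.smul R m t e w⁻¹ a r s }
    have hTT : ∀ s, tw t e w b (tw t e w⁻¹ a s) = s := by
      intro s
      have h := hA.mul R m t e w w⁻¹ a s
      rw [mul_inv_cancel, hA.one, ← hbdef] at h
      exact h.symm
    refine ⟨Tw ∘ₗ P0 R i, Qg ∘ₗ Ti, U, hU, ?_, ?_, ?_, ?_⟩
    · intro s
      have h1 := hA.mul R m t e (w * g) w⁻¹ a s
      have h3 := hA.mul R m t e w g b (tw t e w⁻¹ a s)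
      rw [hxg, h1, ← hbdef, h3, hgb, hg, hA.add R m t e w b, hTT]
      rfl
    · intro u y
      have h1 := hF R m t e c hct hce N w hw b (P0 R i u) (tw t e w⁻¹ a y)
      rw [hwb, hTT, hform] at h1
      exact h1
    · intro u j hj
      have h1 := hB.loc1 R m t e N w hw b (P0 R i u) j hj
      have h3 : P0 R i u j = 0 := by
        have h4 : j ≠ i := by omega
        have h5 : j ≠ i + 1 := by omega
        show (if j = i then u else if j = i + 1 then -u else 0) = 0
        rw [if_neg h4, if_neg h5]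
      show tw t e w b (P0 R i u) j = 0
      rw [h1, h3]
    · intro s s' hs
      exact hloc _ _ fun j hj => hB.loc2 R m t e N w⁻¹ (inv_mem hw) a a s s' (fun _ _ => rfl) hs j hj
  -- the colours of the two strands agree
  have hgb : ∀ g : B, x = w * g * w⁻¹ → dih (ZMod m) g b = b := by
    intro g hxg
    have h1 : dih (ZMod m) x a = dih (ZMod m) w (dih (ZMod m) g b) := by
      rw [hxg, map_mul, map_mul, LinearEquiv.mul_apply, LinearEquiv.mul_apply, ← hbdef]
    have h3 : dih (ZMod m) w (dih (ZMod m) g b) = dih (ZMod m) w b := by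
      rw [← h1, ha, hwb]
    exact (dih (ZMod m) w).injective h3
  have h4u : IsUnit ((2 : R) * 2) := h2.mul h2
  rcases hx with hx | hx
  · have h1 := hgb _ hx
    have hb : b (i + 1) = b i := by
      have h3 := congrFun h1 i
      rw [hDA.σ_apply] at h3
      simpa using h3
    refine key _ hx h1 (Q0 ((t⁻¹ : Rˣ) : R) e (b i) i) (UM (t : R) e (b i)) ?_ ?_ ?_ ?_
    · rw [UM_det]
      refine h4u.mul ?_
      have h5 : (t : R) ^ 2 - 1 = -(1 - (t : R) ^ 2) := by ring
      rw [h5]
      exact ht.neg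
    · intro s
      rw [hA.σ_apply]
      funext j
      show _ = s j + (if j = i then (s (i + 1) - ((t⁻¹ : Rˣ) : R) • Sv e (b i) (s i)) else
        if j = i + 1 then -(s (i + 1) - ((t⁻¹ : Rˣ) : R) • Sv e (b i) (s i)) else 0)
      by_cases h3 : j = i
      · subst h3; simp only [if_true, hb]; abel
      · by_cases h5 : j = i + 1
        · subst h5; simp only [if_true, hb, h3, if_false]; abel
        · simp [h3, h5]
    · intro u y
      exact form_P0 c t e N i hi b hb u y
    · intro s s' hs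
      show s (i + 1) - ((t⁻¹ : Rˣ) : R) • Sv e (b i) (s i) =
        s' (i + 1) - ((t⁻¹ : Rˣ) : R) • Sv e (b i) (s' i)
      rw [hs i (by omega), hs (i + 1) hi]
  · have h1 := hgb _ hx
    have hb : b (i + 1) = b i := by
      have h3 := congrFun h1 (i + 1)
      rw [hDA.σ_inv_apply] at h3
      simpa using h3.symm
    refine key _ hx h1 (Q1 (t : R) e (b i) i) (UM ((t⁻¹ : Rˣ) : R) e (b i)) ?_ ?_ ?_ ?_
    · rw [UM_det]
      refine h4u.mul ?_
      have h6 : ((t⁻¹ : Rˣ) : R) * (t : R) = 1 := by simp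
      have h5 : ((t⁻¹ : Rˣ) : R) ^ 2 - 1 = ((t⁻¹ : Rˣ) : R) ^ 2 * (1 - (t : R) ^ 2) := by
        linear_combination (((t⁻¹ : Rˣ) : R) * (t : R) + 1) * h6
      rw [h5]
      exact ((t⁻¹).isUnit.pow 2).mul ht
    · intro s
      rw [hA.σ_inv_apply]
      funext j
      show _ = s j + (if j = i then ((t : R) • Sv e (b i) (s (i + 1)) - s i) else
        if j = i + 1 then -((t : R) • Sv e (b i) (s (i + 1)) - s i) else 0)
      by_cases h3 : j = i
      · subst h3; simp only [if_true]; abel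
      · by_cases h5 : j = i + 1
        · subst h5; simp only [if_true, h3, if_false]; abel
        · simp [h3, h5]
    · intro u y
      exact form_P1 c t e N i hi b hb u y
    · intro s s' hs
      show (t : R) • Sv e (b i) (s (i + 1)) - s i = (t : R) • Sv e (b i) (s' (i + 1)) - s' i
      rw [hs i (by omega), hs (i + 1) hi]

end Pool.Agent.H83.SG
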